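import Mathlib

/-! A complete bipartite graph that is a bounded tolerance graph but not a max-tolerance graph. -/

namespace Pool.Agent.Results.MP_78c384_co.BoundedNotMax

/-- The length of the intersection of the intervals `[L, R]` and `[L', R']`. -/
noncomputable def overlap (L R L' R' : ℝ) : ℝ := max 0 (min R R' - max L L')

/-- Bounded tolerance graphs. -/
def IsBoundedTolerance {V : Type*} (G : SimpleGraph V) : Prop :=
  ∃ L R t : V → ℝ, (∀ v, L v ≤ R v) ∧ (∀ v, 0 < t v) ∧ (∀ v, t v ≤ R v - L v) ∧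
    ∀ u v, u ≠ v → (G.Adj u v ↔ min (t u) (t v) ≤ overlap (L u) (R u) (L v) (R v))

/-- Max-tolerance graphs. -/
def IsMaxTolerance {V : Type*} (G : SimpleGraph V) : Prop :=
  ∃ L R t : V → ℝ, (∀ v, L v ≤ R v) ∧ (∀ v, 0 < t v) ∧
    ∀ u v, u ≠ v → (G.Adj u v ↔ max (t u) (t v) ≤ overlap (L u) (R u) (L v) (R v))

/-! ### The combinatorial lemma -/

theorem median {α : Type*} [DecidableEq α] (A : Finset α) (f : α → ℝ) (m : ℕ) (hm : 1 ≤ m)
    (hA : A.card = 2 * m) :
    ∃ θ : ℝ, m ≤ (A.filter fun a => f a ≤ θ).card ∧ m ≤ (A.filter fun a => θ ≤ f a).card := by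
  classical
  let S := A.filter fun a => m ≤ (A.filter fun b => f b ≤ f a).card
  have hS : S.Nonempty := by
    have hne : A.Nonempty := Finset.card_pos.mp (by omega)
    obtain ⟨a, ha, hmax⟩ := Finset.exists_max_image A f hne
    refine ⟨a, Finset.mem_filter.mpr ⟨ha, ?_⟩⟩
    rw [Finset.filter_true_of_mem fun b hb => hmax b hb]
    omega
  obtain ⟨a, haS, hmin⟩ := Finset.exists_min_image S f hS
  obtain ⟨haA, hcard⟩ := Finset.mem_filter.mp haS
  refine ⟨f a, hcard, ?_⟩
  have hlt : (A.filter fun b => f b < f a).card < m := by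
    by_contra hge
    push Not at hge
    have hne : (A.filter fun b => f b < f a).Nonempty := Finset.card_pos.mp (by omega)
    obtain ⟨c, hc, hcmax⟩ := Finset.exists_max_image _ f hne
    obtain ⟨hcA, hca⟩ := Finset.mem_filter.mp hc
    have hcS : c ∈ S := by
      refine Finset.mem_filter.mpr ⟨hcA, hge.trans (Finset.card_le_card ?_)⟩
      intro b hb
      exact Finset.mem_filter.mpr ⟨(Finset.mem_filter.mp hb).1, hcmax b hb⟩
    have := hmin c hcS
    linarith
  have hsplit : (A.filter fun b => f b < f a).card + (A.filter fun b => f a ≤ f b).card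
      = A.card := by
    have h1 := Finset.card_filter_add_card_filter_not (s := A) (p := fun b => f b < f a)
    simpa only [not_lt] using h1
  omega

/-- in one coordinate the two sides can be separated after halving -/
theorem separate {α : Type*} [DecidableEq α] (A B : Finset α) (f : α → ℝ) (m : ℕ) (hm : 1 ≤ m)
    (hA : A.card = 2 * m) (hB : B.card = 2 * m) :
    ∃ A' B' : Finset α, A' ⊆ A ∧ B' ⊆ B ∧ A'.card = m ∧ B'.card = m ∧
      ((∀ a ∈ A', ∀ b ∈ B', f a ≤ f b) ∨ (∀ a ∈ A', ∀ b ∈ B', f b ≤ f a)) := by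
  classical
  obtain ⟨θ, h1, h2⟩ := median A f m hm hA
  have h3 : m ≤ (B.filter fun b => f b ≤ θ).card ∨ m ≤ (B.filter fun b => θ ≤ f b).card := by
    by_contra hcon
    push Not at hcon
    have h4 : B.card ≤ (B.filter fun b => f b ≤ θ).card + (B.filter fun b => θ ≤ f b).card := by
      refine (Finset.card_le_card ?_).trans (Finset.card_union_le _ _)
      intro b hb
      rw [Finset.mem_union, Finset.mem_filter, Finset.mem_filter]
      rcases le_total (f b) θ with h | h
      · exact Or.inl ⟨hb, h⟩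
      · exact Or.inr ⟨hb, h⟩
    omega
  rcases h3 with h3 | h3
  · obtain ⟨A', hA', hA'c⟩ := Finset.exists_subset_card_eq h2
    obtain ⟨B', hB', hB'c⟩ := Finset.exists_subset_card_eq h3
    refine ⟨A', B', hA'.trans (Finset.filter_subset _ _), hB'.trans (Finset.filter_subset _ _),
      hA'c, hB'c, Or.inr fun a ha b hb => ?_⟩
    exact (Finset.mem_filter.mp (hB' hb)).2.trans (Finset.mem_filter.mp (hA' ha)).2
  · obtain ⟨A', hA', hA'c⟩ := Finset.exists_subset_card_eq h1
    obtain ⟨B', hB', hB'c⟩ := Finset.exists_subset_card_eq h3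
    refine ⟨A', B', hA'.trans (Finset.filter_subset _ _), hB'.trans (Finset.filter_subset _ _),
      hA'c, hB'c, Or.inl fun a ha b hb => ?_⟩
    exact (Finset.mem_filter.mp (hA' ha)).2.trans (Finset.mem_filter.mp (hB' hb)).2

/-- the inequality for a separated coordinate -/
theorem coord (u u' w w' : ℝ) (h : (u ≤ w ∧ u ≤ w' ∧ u' ≤ w ∧ u' ≤ w') ∨
    (w ≤ u ∧ w' ≤ u ∧ w ≤ u' ∧ w' ≤ u')) :
    max u u' + max w w' ≤ max u w + max u' w' := by
  rcases h with ⟨h1, h2, h3, h4⟩ | ⟨h1, h2, h3, h4⟩
  · rw [max_eq_right h1, max_eq_right h4]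
    rcases max_cases u u' with h | h <;> rcases max_cases w w' with h' | h' <;> linarith
  · rw [max_eq_left h1, max_eq_left h4]
    rcases max_cases u u' with h | h <;> rcases max_cases w w' with h' | h' <;> linarith

/-- the graph -/
abbrev K : SimpleGraph (Fin 16 ⊕ Fin 16) := completeBipartiteGraph (Fin 16) (Fin 16)

theorem not_max : ¬ IsMaxTolerance K := by
  classical
  rintro ⟨L, R, t, -, ht, h⟩
  -- adjacency as an inequality
  have key : ∀ u v, u ≠ v → (K.Adj u v ↔
      max (L u) (L v) + max (-R u) (-R v) + max (t u) (t v) ≤ 0) := by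
    intro u v huv
    rw [h u v huv, overlap, le_max_iff]
    have h0 : ¬ max (t u) (t v) ≤ 0 := not_le.mpr (lt_max_of_lt_left (ht u))
    rw [or_iff_right h0]
    have h1 : max (-R u) (-R v) = - min (R u) (R v) := max_neg_neg _ _
    rw [h1]
    constructor <;> intro h <;> linarith
  let A : Finset (Fin 16 ⊕ Fin 16) := Finset.univ.image Sum.inl
  let B : Finset (Fin 16 ⊕ Fin 16) := Finset.univ.image Sum.inr
  have hA : A.card = 2 * 8 := by
    rw [Finset.card_image_of_injective _ Sum.inl_injective]; rfl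
  have hB : B.card = 2 * 8 := by
    rw [Finset.card_image_of_injective _ Sum.inr_injective]; rfl
  obtain ⟨A1, B1, sA1, sB1, cA1, cB1, o1⟩ := separate A B L 8 (by norm_num) hA hB
  obtain ⟨A2, B2, sA2, sB2, cA2, cB2, o2⟩ := separate A1 B1 (fun v => -R v) 4 (by norm_num) cA1 cB1
  obtain ⟨A3, B3, sA3, sB3, cA3, cB3, o3⟩ := separate A2 B2 t 2 (by norm_num) cA2 cB2
  obtain ⟨u, u', huu, hA3⟩ := Finset.card_eq_two.mp cA3
  obtain ⟨w, w', hww, hB3⟩ := Finset.card_eq_two.mp cB3
  have mu3 : u ∈ A3 := by rw [hA3]; simp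
  have mu3' : u' ∈ A3 := by rw [hA3]; simp
  have mw3 : w ∈ B3 := by rw [hB3]; simp
  have mw3' : w' ∈ B3 := by rw [hB3]; simp
  have mu2 := sA3 mu3
  have mu2' := sA3 mu3'
  have mw2 := sB3 mw3
  have mw2' := sB3 mw3'
  have mu1 := sA2 mu2
  have mu1' := sA2 mu2'
  have mw1 := sB2 mw2
  have mw1' := sB2 mw2'
  obtain ⟨i, -, rfl⟩ := Finset.mem_image.mp (sA1 mu1)
  obtain ⟨i', -, rfl⟩ := Finset.mem_image.mp (sA1 mu1')
  obtain ⟨j, -, rfl⟩ := Finset.mem_image.mp (sB1 mw1)
  obtain ⟨j', -, rfl⟩ := Finset.mem_image.mp (sB1 mw1')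
  have e1 := (key (Sum.inl i) (Sum.inr j) (by simp)).mp (by simp)
  have e2 := (key (Sum.inl i') (Sum.inr j') (by simp)).mp (by simp)
  have e3 := mt (key (Sum.inl i) (Sum.inl i') huu).mpr (by simp)
  have e4 := mt (key (Sum.inr j) (Sum.inr j') hww).mpr (by simp)
  have q1 := coord (L (Sum.inl i)) (L (Sum.inl i')) (L (Sum.inr j)) (L (Sum.inr j')) (by
    rcases o1 with o | o
    · exact Or.inl ⟨o _ mu1 _ mw1, o _ mu1 _ mw1', o _ mu1' _ mw1, o _ mu1' _ mw1'⟩
    · exact Or.inr ⟨o _ mu1 _ mw1, o _ mu1 _ mw1', o _ mu1' _ mw1, o _ mu1' _ mw1'⟩)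
  have q2 := coord (-R (Sum.inl i)) (-R (Sum.inl i')) (-R (Sum.inr j)) (-R (Sum.inr j')) (by
    rcases o2 with o | o
    · exact Or.inl ⟨o _ mu2 _ mw2, o _ mu2 _ mw2', o _ mu2' _ mw2, o _ mu2' _ mw2'⟩
    · exact Or.inr ⟨o _ mu2 _ mw2, o _ mu2 _ mw2', o _ mu2' _ mw2, o _ mu2' _ mw2'⟩)
  have q3 := coord (t (Sum.inl i)) (t (Sum.inl i')) (t (Sum.inr j)) (t (Sum.inr j')) (by
    rcases o3 with o | o
    · exact Or.inl ⟨o _ mu3 _ mw3, o _ mu3 _ mw3', o _ mu3' _ mw3, o _ mu3' _ mw3'⟩
    · exact Or.inr ⟨o _ mu3 _ mw3, o _ mu3 _ mw3', o _ mu3' _ mw3, o _ mu3' _ mw3'⟩)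
  linarith

/-- left endpoints -/
def lo : Fin 16 ⊕ Fin 16 → ℝ
  | .inl i => i
  | .inr j => j - 16

/-- lengths -/
def len : Fin 16 ⊕ Fin 16 → ℝ
  | .inl _ => 16
  | .inr _ => 48

theorem bounded : IsBoundedTolerance K := by
  refine ⟨lo, fun v => lo v + len v, len, ?_, ?_, ?_, ?_⟩
  · rintro (i | i) <;> simp [len]
  · rintro (i | i) <;> norm_num [len]
  · intro v
    linarith
  · have hI : ∀ i : Fin 16, (0 : ℝ) ≤ i ∧ (i : ℝ) ≤ 15 := by
      intro i
      refine ⟨by positivity, ?_⟩
      have : (i : ℕ) ≤ 15 := by omega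
      exact_mod_cast this
    have hne : ∀ i j : Fin 16, i ≠ j → (i : ℝ) ≠ j := by
      intro i j h e
      apply h
      apply Fin.ext
      exact_mod_cast e
    rintro (i | i) (j | j) hij <;>
      simp only [completeBipartiteGraph_adj, Sum.isLeft_inl, Sum.isRight_inl, Sum.isLeft_inr,
        Sum.isRight_inr, overlap, lo, len]
    · have h1 := hne i j (fun e => hij (by rw [e]))
      have h2 := hI i
      have h3 := hI j
      simp only [Bool.false_eq_true, and_false, false_and, or_self, false_iff, not_le, min_self]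
      rw [max_lt_iff]
      refine ⟨by norm_num, ?_⟩
      rcases lt_or_gt_of_ne h1 with h | h
      · rw [min_eq_left (by linarith), max_eq_right h.le]; linarith
      · rw [min_eq_right (by linarith), max_eq_left h.le]; linarith
    · have h2 := hI i
      have h3 := hI j
      simp only [and_self, true_or, true_iff]
      rw [min_eq_left (by norm_num), min_eq_left (by linarith), max_eq_left (a := (i : ℝ))
        (by linarith)]
      apply le_max_of_le_right
      linarith
    · have h2 := hI i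
      have h3 := hI j
      simp only [and_self, or_true, true_iff]
      rw [min_eq_right (by norm_num), min_eq_right (by linarith), max_eq_right (b := (j : ℝ))
        (by linarith)]
      apply le_max_of_le_right
      linarith
    · have h1 := hne i j (fun e => hij (by rw [e]))
      have h2 := hI i
      have h3 := hI j
      simp only [Bool.false_eq_true, and_false, false_and, or_self, false_iff, not_le, min_self]
      rw [max_lt_iff]
      refine ⟨by norm_num, ?_⟩
      rcases lt_or_gt_of_ne h1 with h | h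
      · rw [min_eq_left (by linarith), max_eq_right (by linarith)]; linarith
      · rw [min_eq_right (by linarith), max_eq_left (by linarith)]; linarith

/-- The complete bipartite graph `K_{16,16}` is a bounded tolerance graph but not a max-tolerance
graph. -/
theorem result : IsBoundedTolerance (completeBipartiteGraph (Fin 16) (Fin 16)) ∧
    ¬ IsMaxTolerance (completeBipartiteGraph (Fin 16) (Fin 16)) :=
  ⟨bounded, not_max⟩

end Pool.Agent.Results.MP_78c384_co.BoundedNotMax
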